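import Pool.Agent.R639.CT.Main

/-!
# The endpoint set of the Cannon-Thurston lamination has Hausdorff dimension zero

Definitions: `Pool.Agent.H322R3.HypDefs` (word-hyperbolic groups, Gromov boundary) and
`Pool.Agent.R639.CT.Defs` (Cannon-Thurston maps, trees, visual metrics).

The group `G_Q` of the problem is word-hyperbolic, contains the free group `F` of rank `r` and has a
Cannon-Thurston map, so the theorem applies with `G = G_Q` and `ι` the inclusion of `F` in `G_Q`.
-/

set_option autoImplicit false

namespace Pool.Agent.Results.MP_46c206_al.LaminationEndpointsDimZero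

open Pool.Agent.H322R3.Hyp Pool.Agent.R639.CT

/-- Let `G` be a word-hyperbolic group with finite generating set `S`, `ι` an injective
homomorphism of the free group `F` of rank `r` to `G` and `f : ∂F → ∂G` the Cannon-Thurston map of
`ι`. Let `X` be an `ℝ`-tree with a geometric action of `F` (for example a point of outer space),
`x₀ ∈ X`, `a > 1` and `m` a visual metric on `∂F` with respect to `X`, `x₀` and `a`. Then the set of
endpoints of the Cannon-Thurston lamination `Λ = {(p, q) | p ≠ q, f p = f q}` has Hausdorff
dimension zero with respect to `m`. -/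
theorem result (r : ℕ) (G : Type) [Group G] (S : Set G)
    (hSfin : S.Finite) (hS : Subgroup.closure S = ⊤) (hyp : IsHyperbolic S)
    (ι : FreeGroup (Fin r) →* G) (hι : Function.Injective ι)
    (f : Boundary (basis r) → Boundary S) (hf : IsCannonThurston (basis r) S ι f)
    (X : Type) [MetricSpace X] [MulAction (FreeGroup (Fin r)) X] (hX : IsTree X)
    (hG : IsGeometric (FreeGroup (Fin r)) X) (x₀ : X) (a : ℝ) (ha : 1 < a)
    (m : MetricSpace (Boundary (basis r))) (hm : IsVisual (basis r) x₀ a m) :
    hausdorffDim m {p | ∃ q, p ≠ q ∧ f p = f q} = 0 :=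
  dim_fibres hSfin hS hyp ι hι f hf hX hG x₀ a ha m hm

end Pool.Agent.Results.MP_46c206_al.LaminationEndpointsDimZero
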